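import Pool.Agent.H654R5.PT.Stm

/-!
# PES: `es` in polynomial time
-/

namespace Pool.Agent.H654R5.PT.PES

open Pool.Agent.NPC

variable {α β : Type} [TEnc α] [TEnc β]

theorem LogPar.comp {k : β → ℕ} {f : α → β} (h : LogPar k) (hf : NPC.Poly f) :
    LogPar (fun a => k (f a)) := ⟨h.1.comp hf, h.2.comp hf⟩

theorem replicate {n : α → ℕ} (hn : UPoly n) (b : Bool) :
    NPC.Poly (fun a => List.replicate (n a) b) :=
  (NPC.Poly.map (l := fun a => List.replicate (n a) ()) hn (F := fun _ _ => b)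
    (NPC.Poly.const b)).congr fun a => by simp

theorem padTo_poly {k : α → ℕ} {x : α → List Bool} (hk : UPoly k) (hx : NPC.Poly x) :
    NPC.Poly (fun a => padTo (k a) (x a)) := by
  unfold padTo
  refine NPC.Poly.append hx (replicate (UPoly.of_le ?_ hk (fun a => Nat.sub_le _ _)) false)
  exact NPC.Poly.sub hk.toPoly (NPC.Poly.length hx)

theorem kap_upoly (hPPA : S_PPA) {g τ : α → ℕ} (hg : LogPar g) (hτ : UPoly τ) :
    UPoly (fun a => kap (g a) (τ a)) := by
  obtain ⟨-, -, -, -, -, -, h7, h8, -⟩ := hPPA g hg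
  unfold kap
  exact ((hτ.add h8.1).add ((UPoly.const 3).mul h7.1)).add (UPoly.const 12)

theorem PES_proof (hPST : S_PST) (hPPA : S_PPA) (hPE1 : S_PE1) (hPIR : S_PIR) (hPCN : S_PCN) :
    S_PES := by
  intro α _ g τ x hg hτ hx
  obtain ⟨-, -, -, -, -, -, h7, h8, h9, h10, -⟩ := hPPA g hg
  unfold es
  refine NPC.Poly.flatMap (l := fun a => irrs (cS (g a)))
    (F := fun a h => (allStr (dd (gS (g a)))).map (fun s =>
      E1 (gS (g a)) (τ a + 2) (τ a)
        (padTo (2 ^ gS (g a)) (cond (kap (g a) (τ a)) (NN (g a)) (cS (g a)) h (x a))) s))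
    (hPIR _ h9) ?_
  have f1 : NPC.Poly (fun p : α × List Bool => p.1) := NPC.Poly.fst NPC.Poly.id
  refine NPC.Poly.map (l := fun p : α × List Bool => allStr (dd (gS (g p.1))))
    (F := fun p s => E1 (gS (g p.1)) (τ p.1 + 2) (τ p.1)
        (padTo (2 ^ gS (g p.1)) (cond (kap (g p.1) (τ p.1)) (NN (g p.1)) (cS (g p.1)) p.2 (x p.1)))
        s) (hPST _ (LogPar.comp (k := fun a => dd (gS (g a))) h8 f1)) ?_
  have f2 : NPC.Poly (fun p : (α × List Bool) × List Bool => p.1.1) := NPC.Poly.fst (NPC.Poly.fst NPC.Poly.id)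
  have f3 : NPC.Poly (fun p : (α × List Bool) × List Bool => p.1.2) := NPC.Poly.snd (NPC.Poly.fst NPC.Poly.id)
  refine hPE1 (fun p : (α × List Bool) × List Bool => gS (g p.1.1)) (fun p => τ p.1.1 + 2)
    (fun p => τ p.1.1) _ _ (LogPar.comp (k := fun a => gS (g a)) h7 f2) ((hτ.comp f2).add (UPoly.const 2)) (hτ.comp f2)
    (padTo_poly (h7.2.comp f2) ?_) (NPC.Poly.snd NPC.Poly.id)
  exact hPCN (fun p : (α × List Bool) × List Bool => kap (g p.1.1) (τ p.1.1))
    (fun p => NN (g p.1.1)) (fun p => cS (g p.1.1)) (fun p => p.1.2) (fun p => x p.1.1)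
    ((kap_upoly hPPA hg hτ).comp f2) (h10.comp f2) (h9.1.comp f2) f3 (hx.comp f2)

end Pool.Agent.H654R5.PT.PES
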